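import Pool.Agent.Helper5_OPEN.FinDefs
import Pool.Agent.Helper1_Gen.EfBasic
import Pool.Agent.Helper1_Gen.Sums
import Pool.Agent.Helper1_Gen.Stieltjes

/-!
Module FINK: bounds, continuity, interchange of sum and integral, and the Stieltjes argument.
-/

namespace Pool.Agent.H5O

open MeasureTheory Complex Filter Topology Pool.Agent.H16Iso Pool.Agent.H1Gen

namespace H15

theorem EE_eq (i : Idx) (z : ℂ) : EE i z = 8 / (3 * Real.sqrt 3) *
    (efz i.1.1 i.1.2 (⟨z.re, z.im / Real.sqrt 3⟩ : ℂ) ^ 2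
      + efx i.1.1 i.1.2 (⟨z.re, z.im / Real.sqrt 3⟩ : ℂ) ^ 2 / 3) := by
  unfold EE
  rw [ef_fderiv_one, ef_fderiv_I]

theorem efz_le (i : Idx) (z : ℂ) : |efz i.1.1 i.1.2 z| ≤ 2 * Real.pi * i.1.1 := by
  have ha : (0 : ℝ) < i.1.2 := by exact_mod_cast i.2.1
  have hab : (i.1.2 : ℝ) ≤ i.1.1 := by exact_mod_cast i.2.2.le
  have hpi := Real.pi_pos
  refine (efg_abs_le _ _ _ _ _ _ _ _).trans ?_
  push_cast
  simp only [mul_one, abs_neg]
  rw [abs_of_nonneg (by positivity), abs_of_nonneg (by positivity),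
    abs_of_nonneg (by have : 0 ≤ (i.1.1 : ℝ) - i.1.2 := by linarith
                      positivity)]
  nlinarith [mul_le_mul_of_nonneg_left hab hpi.le]

theorem efx_le (i : Idx) (z : ℂ) : |efx i.1.1 i.1.2 z| ≤ 4 * Real.pi * i.1.1 := by
  have ha : (0 : ℝ) < i.1.2 := by exact_mod_cast i.2.1
  have hab : (i.1.2 : ℝ) ≤ i.1.1 := by exact_mod_cast i.2.2.le
  have hpi := Real.pi_pos
  refine (efg_abs_le _ _ _ _ _ _ _ _).trans ?_
  push_cast
  simp only [mul_one]
  rw [abs_of_nonneg (by positivity), abs_of_nonneg (by positivity), abs_of_nonneg (by positivity)]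
  nlinarith [mul_le_mul_of_nonneg_left hab hpi.le]

theorem sq_le_lam (i : Idx) : 4 * Real.pi ^ 2 / 9 * (i.1.1 : ℝ) ^ 2 ≤ lam i := by
  have : i.1.1 ^ 2 ≤ Nf i := by
    unfold Nf
    rw [add_assoc]
    exact Nat.le_add_right _ _
  have h2 : (i.1.1 : ℝ) ^ 2 ≤ Nf i := by exact_mod_cast this
  unfold lam
  exact mul_le_mul_of_nonneg_left h2 (by positivity)

theorem EE_nonneg (i : Idx) (z : ℂ) : 0 ≤ EE i z := by
  unfold EE
  positivity

theorem EE_le (i : Idx) (z : ℂ) : EE i z ≤ 200 * lam i := by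
  rw [EE_eq]
  have hs1 : 1 ≤ Real.sqrt 3 := by
    rw [Real.one_le_sqrt]; norm_num
  have h1 : efz i.1.1 i.1.2 (⟨z.re, z.im / Real.sqrt 3⟩ : ℂ) ^ 2 ≤ (2 * Real.pi * i.1.1) ^ 2 := by
    rw [← sq_abs]
    exact pow_le_pow_left₀ (abs_nonneg _) (efz_le _ _) 2
  have h2 : efx i.1.1 i.1.2 (⟨z.re, z.im / Real.sqrt 3⟩ : ℂ) ^ 2 ≤ (4 * Real.pi * i.1.1) ^ 2 := by
    rw [← sq_abs]
    exact pow_le_pow_left₀ (abs_nonneg _) (efx_le _ _) 2
  have h3 := sq_le_lam i
  have h4 : 8 / (3 * Real.sqrt 3) ≤ 8 / 3 := by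
    rw [div_le_div_iff₀ (by positivity) (by norm_num)]
    nlinarith
  have h5 : 0 ≤ lam i := by
    unfold lam; positivity
  calc _ ≤ 8 / 3 * ((2 * Real.pi * i.1.1) ^ 2 + (4 * Real.pi * i.1.1) ^ 2 / 3) := by
        apply mul_le_mul h4 _ (by positivity) (by norm_num)
        linarith
    _ = 8 / 3 * (28 / 3) * (9 / 4) * (4 * Real.pi ^ 2 / 9 * (i.1.1 : ℝ) ^ 2) := by ring
    _ ≤ 8 / 3 * (28 / 3) * (9 / 4) * lam i := by
        exact mul_le_mul_of_nonneg_left h3 (by norm_num)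
    _ ≤ 200 * lam i := by nlinarith

theorem continuous_EE (i : Idx) : Continuous (EE i) := by
  have h1 : Continuous fun z : ℂ => (⟨z.re, z.im / Real.sqrt 3⟩ : ℂ) := by
    have : (fun z : ℂ => (⟨z.re, z.im / Real.sqrt 3⟩ : ℂ))
        = fun z : ℂ => ((z.re : ℝ) : ℂ) + ((z.im / Real.sqrt 3 : ℝ) : ℂ) * I := by
      funext z
      apply Complex.ext <;> simp
    rw [this]
    fun_prop
  have h2 : Continuous (efz i.1.1 i.1.2) := efg_continuous _ _ _ _ _ _ _
  have h3 : Continuous (efx i.1.1 i.1.2) := efg_continuous _ _ _ _ _ _ _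
  have h4 := h2.comp h1
  have h5 := h3.comp h1
  have : EE i = fun z : ℂ => 8 / (3 * Real.sqrt 3) *
      ((efz i.1.1 i.1.2 ∘ fun z : ℂ => (⟨z.re, z.im / Real.sqrt 3⟩ : ℂ)) z ^ 2
        + (efx i.1.1 i.1.2 ∘ fun z : ℂ => (⟨z.re, z.im / Real.sqrt 3⟩ : ℂ)) z ^ 2 / 3) := by
    funext z
    exact EE_eq i z
  rw [this]
  fun_prop

theorem term_le (i : Idx) {s : ℝ} (hs : 0 ≤ s) (z : ℂ) :
    |2 * ((lam i + s) ^ 3)⁻¹ * EE i z| ≤ 400 * (lam i ^ 2)⁻¹ := by
  have h := Sm.lam_pos i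
  have h2 := Sm.lam_add_pos i hs
  have h0 := EE_nonneg i z
  rw [abs_of_nonneg (by positivity)]
  calc 2 * ((lam i + s) ^ 3)⁻¹ * EE i z ≤ 2 * ((lam i + s) ^ 3)⁻¹ * (200 * lam i) :=
        mul_le_mul_of_nonneg_left (EE_le i z) (by positivity)
    _ = 400 * (((lam i + s) ^ 3)⁻¹ * lam i) := by ring
    _ ≤ 400 * (lam i ^ 2)⁻¹ := mul_le_mul_of_nonneg_left (Sm.weight_le i hs) (by norm_num)

theorem continuous_Kd {s : ℝ} (hs : 0 ≤ s) : Continuous (Kd s) := by
  unfold Kd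
  refine continuous_tsum (u := fun i => 400 * (lam i ^ 2)⁻¹) (fun i => ?_)
    (Sm.summable_lam.mul_left 400) ?_
  · exact continuous_const.mul (continuous_EE i)
  · intro i z
    exact term_le i hs z

theorem hasSum_Kd {s : ℝ} (hs : 0 ≤ s) (z : ℂ) :
    HasSum (fun i : Idx => 2 * ((lam i + s) ^ 3)⁻¹ * EE i z) (Kd s z) := by
  apply Summable.hasSum
  apply Summable.of_norm_bounded (g := fun i => 400 * (lam i ^ 2)⁻¹) (Sm.summable_lam.mul_left _)
  intro i
  exact term_le i hs z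

theorem integral_Kd {s : ℝ} (hs : 0 ≤ s) {w : ℝ → ℝ} (hw : Continuous w) {γ : ℝ → ℂ}
    (hγ : Continuous γ) :
    HasSum (fun i : Idx => 2 * ((lam i + s) ^ 3)⁻¹ * ∫ t in (0 : ℝ)..1, w t * EE i (γ t))
      (∫ t in (0 : ℝ)..1, w t * Kd s (γ t)) := by
  obtain ⟨C, hC⟩ := (isCompact_Icc (a := (0 : ℝ)) (b := 1)).exists_bound_of_continuousOn
    hw.continuousOn
  have hC0 : 0 ≤ C := (norm_nonneg _).trans (hC 0 (by simp))
  have key := intervalIntegral.hasSum_integral_of_dominated_convergence (μ := volume)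
    (F := fun (i : Idx) (t : ℝ) => w t * (2 * ((lam i + s) ^ 3)⁻¹ * EE i (γ t)))
    (f := fun t => w t * Kd s (γ t)) (a := 0) (b := 1)
    (bound := fun i _ => C * (400 * (lam i ^ 2)⁻¹)) ?_ ?_ ?_ ?_ ?_
  · have e : (fun i : Idx => 2 * ((lam i + s) ^ 3)⁻¹ * ∫ t in (0 : ℝ)..1, w t * EE i (γ t)) =
        fun i => ∫ t in (0 : ℝ)..1, w t * (2 * ((lam i + s) ^ 3)⁻¹ * EE i (γ t)) := by
      funext i
      rw [← intervalIntegral.integral_const_mul]
      congr 1
      funext t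
      ring
    rw [e]
    exact key
  · intro i
    have := (continuous_EE i).comp hγ
    exact (hw.mul (continuous_const.mul this)).aestronglyMeasurable
  · intro i
    refine Eventually.of_forall fun t ht => ?_
    have ht' : t ∈ Set.Icc (0 : ℝ) 1 := by
      rw [Set.uIoc_of_le zero_le_one] at ht
      exact ⟨ht.1.le, ht.2⟩
    rw [Real.norm_eq_abs, abs_mul]
    exact mul_le_mul (hC t ht') (term_le i hs _) (abs_nonneg _) hC0
  · exact Eventually.of_forall fun t _ => (Sm.summable_lam.mul_left 400).mul_left _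
  · exact intervalIntegrable_const
  · refine Eventually.of_forall fun t _ => ?_
    exact (hasSum_Kd hs (γ t)).mul_left _

theorem hasSum_LK {n : ℕ} (p : Fin (n + 3) → ℂ) (a b : Fin (n + 3) → ℝ) {s : ℝ} (hs : 0 ≤ s) :
    HasSum (fun i : Idx => 2 * ((lam i + s) ^ 3)⁻¹ * LL p a b i) (LK p a b (Kd s)) := by
  unfold LK LL
  have h := hasSum_sum (s := Finset.univ) (fun (j : Fin (n + 3)) _ =>
    (integral_Kd hs (w := fun t => (1 - t) * a j + t * b j) (by fun_prop)
      (γ := fun t : ℝ => p j + (t : ℂ) * (p (j + 1) - p j)) (by fun_prop)).mul_left (sl p j))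
  refine (h.congr_fun ?_).trans_eq rfl
  intro i
  rw [Finset.mul_sum]
  exact Finset.sum_congr rfl fun j _ => by ring

theorem LL_le {n : ℕ} (p : Fin (n + 3) → ℂ) (a b : Fin (n + 3) → ℝ) :
    ∃ C : ℝ, ∀ i : Idx, |LL p a b i| ≤ C * lam i := by
  refine ⟨∑ j, sl p j * ((|a j| + |b j|) * 200), fun i => ?_⟩
  have h5 : 0 ≤ lam i := by
    unfold lam; positivity
  unfold LL
  refine (Finset.abs_sum_le_sum_abs _ _).trans ?_
  rw [Finset.sum_mul]
  apply Finset.sum_le_sum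
  intro j _
  have hsl : 0 ≤ sl p j := norm_nonneg _
  rw [abs_mul, abs_of_nonneg hsl]
  have h1 : ‖∫ t in (0 : ℝ)..1, ((1 - t) * a j + t * b j)
      * EE i (p j + (t : ℂ) * (p (j + 1) - p j))‖ ≤ (|a j| + |b j|) * (200 * lam i) * |1 - 0| := by
    apply intervalIntegral.norm_integral_le_of_norm_le_const
    intro t ht
    rw [Set.uIoc_of_le zero_le_one] at ht
    rw [Real.norm_eq_abs, abs_mul]
    apply mul_le_mul _ _ (abs_nonneg _) (by positivity)
    · refine (abs_add_le _ _).trans ?_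
      rw [abs_mul, abs_mul, abs_of_nonneg (by linarith [ht.2] : 0 ≤ 1 - t), abs_of_pos ht.1]
      have h6 := mul_le_of_le_one_left (abs_nonneg (a j)) (by linarith [ht.1] : 1 - t ≤ 1)
      have h7 := mul_le_of_le_one_left (abs_nonneg (b j)) ht.2
      exact add_le_add h6 h7
    · rw [abs_of_nonneg (EE_nonneg _ _)]
      exact EE_le _ _
  rw [Real.norm_eq_abs, sub_zero, abs_one, mul_one] at h1
  calc sl p j * _ ≤ sl p j * ((|a j| + |b j|) * (200 * lam i)) :=
        mul_le_mul_of_nonneg_left h1 hsl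
    _ = _ := by ring

theorem lam_fin (R : ℝ) : {i : Idx | lam i ≤ R}.Finite := by
  have h1 : Tendsto (fun i : Idx => (lam i ^ 2)⁻¹) cofinite (𝓝 0) :=
    Sm.summable_lam.tendsto_cofinite_zero
  by_cases hR : 0 < R
  · have h2 : ∀ᶠ i : Idx in cofinite, (lam i ^ 2)⁻¹ < (R ^ 2)⁻¹ :=
      h1.eventually_lt_const (by positivity)
    refine (Filter.eventually_cofinite.1 h2).subset ?_
    intro i hi
    have hp := Sm.lam_pos i
    simp only [Set.mem_setOf_eq, not_lt] at hi ⊢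
    exact inv_anti₀ (by positivity) (pow_le_pow_left₀ hp.le hi 2)
  · have : {i : Idx | lam i ≤ R} = ∅ := by
      ext i
      simp only [Set.mem_setOf_eq, Set.mem_empty_iff_false, iff_false, not_le]
      exact lt_of_le_of_lt (not_lt.1 hR) (Sm.lam_pos i)
    rw [this]
    exact Set.finite_empty

end H15

open H15 in
/-- module FINK -/
theorem fink : FinkStatement := by
  refine ⟨fun i z => ⟨EE_nonneg i z, EE_le i z⟩, continuous_EE, fun s hs => continuous_Kd hs,
    fun n p a b s hs => (hasSum_LK p a b hs).tsum_eq.symm, ?_⟩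
  intro n p a b h Λ
  obtain ⟨C, hC⟩ := LL_le p a b
  have hsum : Summable fun i : Idx => |LL p a b i| / lam i ^ 3 := by
    have h1 := Sm.summable_weight (f := fun i => |LL p a b i|) (A := C)
      (fun i => by rw [abs_abs]; exact hC i) (s := 0) le_rfl
    refine h1.congr fun i => ?_
    rw [add_zero, div_eq_mul_inv, mul_comm]
  have h2 := stieltjes (l := lam) (b := LL p a b) Sm.lam_pos lam_fin hsum (fun s hs => by
    have h3 := (hasSum_LK p a b hs).tsum_eq
    rw [h s hs] at h3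
    have h4 : ∑' i : Idx, 2 * ((lam i + s) ^ 3)⁻¹ * LL p a b i
        = 2 * ∑' i : Idx, ((lam i + s) ^ 3)⁻¹ * LL p a b i := by
      rw [← tsum_mul_left]
      exact tsum_congr fun i => by ring
    rw [h4] at h3
    linarith) (4 * Real.pi ^ 2 / 9 * (Λ : ℝ))
  have e : ∀ i : Idx, lam i = 4 * Real.pi ^ 2 / 9 * (Λ : ℝ) ↔ Nf i = Λ := by
    intro i
    have hpi := Real.pi_pos
    unfold lam
    rw [mul_right_inj' (by positivity)]
    exact Nat.cast_inj
  rw [← h2]
  exact ((Equiv.subtypeEquivRight e).tsum_eq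
    (fun i : {i : Idx // Nf i = Λ} => LL p a b i.1)).symm

end Pool.Agent.H5O
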